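import Pool.Agent.Helper5.RO.Goals
import Pool.Agent.Helper29.BL.ADD

/-!
# Project RO (MP_a41896_nt), packet HVAL
-/

namespace Pool.Agent.Helper18.RO

open WeierstrassCurve Height Height.AdmissibleAbsValues MvPolynomial
open Pool.Agent.Helper29.BL Pool.Agent.Helper29.GC Pool.Agent.Helper5.RO

noncomputable section

section hom

variable {R S T : Type} [CommRing R] [CommRing S] [CommRing T]

theorem map_sy (g : S →+* T) (a b : Fin 2 → S) (j : Fin 3) :
    g (sy a b j) = sy (fun i => g (a i)) (fun i => g (b i)) j := by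
  fin_cases j <;> simp [sy]

theorem map_asm (φ : R →+* S) (g : S →+* T) (W : WeierstrassCurve R) (v : Fin 3 → S)
    (j : Fin 3) : g (asm φ W v j) = asm (g.comp φ) W (fun i => g (v i)) j := by
  fin_cases j <;> simp [asm, map_ofNat g]

theorem asm_smul (φ : R →+* S) (W : WeierstrassCurve R) (σ : S) (v : Fin 3 → S) (j : Fin 3) :
    asm φ W (fun i => σ * v i) j = σ ^ 2 * asm φ W v j := by
  fin_cases j <;> simp [asm] <;> ring

theorem sy_smul (σ : S) (a b : Fin 2 → S) (j : Fin 3) :
    sy (σ • a) b j = σ * sy a b j := by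
  fin_cases j <;> simp [sy] <;> ring

theorem asm_eval (φ : R →+* S) (W : WeierstrassCurve R) (v : Fin 3 → S) (j : Fin 3) :
    asm φ W v j = (addSubMap (W.map φ) j).eval v := by
  have hv : v = ![v 0, v 1, v 2] := by
    ext i
    fin_cases i <;> rfl
  have h := congrFun (addSub_eval (W.map φ) (v 0) (v 1) (v 2)) j
  rw [← hv] at h
  change MvPolynomial.eval v (addSubMap (W.map φ) j) = _ at h
  rw [h]
  fin_cases j <;> simp [asm]

end hom

theorem xRep_of_ne_zero {F : Type} [Field F] {W : Affine F} {P : W.Point} (hP : P ≠ 0) :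
    P.xRep = ![xc P, 1] := by
  rcases P with _ | ⟨x, y, h⟩
  · exact absurd rfl hP
  · exact Affine.Point.xRep_some h

/-- evaluation of `finSuccEquiv` -/
theorem eval_fin {K F : Type} [Field K] [Field F] (φ : K →+* F) {n : ℕ} (ξ : Fin n → F) (t : F)
    (f : MvPolynomial (Fin (n + 1)) K) :
    Polynomial.eval t ((finSuccEquiv K n f).map (eval₂Hom φ ξ)) =
      eval₂Hom φ (Fin.cons t ξ) f := by
  have h : ((Polynomial.evalRingHom t).comp ((Polynomial.mapRingHom (eval₂Hom φ ξ)).comp
      (finSuccEquiv K n).toRingEquiv.toRingHom)) = eval₂Hom φ (Fin.cons t ξ) := by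
    refine MvPolynomial.ringHom_ext (fun a => ?_) (fun i => ?_)
    · simp [finSuccEquiv_apply]
    · refine Fin.cases ?_ (fun i => ?_) i
      · simp [finSuccEquiv_X_zero]
      · simp [finSuccEquiv_X_succ]
  exact congrArg (fun g : MvPolynomial (Fin (n + 1)) K →+* F => g f) h

theorem gHVAL : G_HVAL := by
  intro K _ _ W _ n D c A B hAB f N hN F _ _ φ W' hW' w b hw hb
  subst hW'
  have key : ∀ i, ∃ κ : F, κ ≠ 0 ∧ ∀ j,
      asm φ W (sy ![(A i).eval₂ φ (xc w), (B i).eval₂ φ (xc w)] ![xc (b i), 1]) j =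
        κ * (c i • w + b i).sym2x (c i • w - b i) j := by
    intro i
    obtain ⟨σ, hσ, h1, h2⟩ := (hAB i).rep F φ (W.map φ) rfl w hw
    obtain ⟨γ, hγ, h3⟩ := addSub_correct add dbl xeq F (W.map φ) (c i • w) (b i)
    refine ⟨σ ^ 2 * γ, mul_ne_zero (pow_ne_zero 2 hσ) hγ, fun j => ?_⟩
    have e1 : ![(A i).eval₂ φ (xc w), (B i).eval₂ φ (xc w)] = σ • (c i • w).xRep := by
      ext k
      fin_cases k
      · simpa using h1
      · simpa using h2
    have e2 : sy (![(A i).eval₂ φ (xc w), (B i).eval₂ φ (xc w)] : Fin 2 → F) ![xc (b i), 1] =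
        fun k => σ * (c i • w).sym2x (b i) k := by
      funext k
      rw [e1, ← xRep_of_ne_zero (hb i), sy_smul]
      rfl
    rw [e2, asm_smul, asm_eval]
    have h4 := congrFun h3 j
    change MvPolynomial.eval _ (addSubMap (W.map φ) j) = _ at h4
    rw [h4, Pi.smul_apply, smul_eq_mul, mul_assoc]
  choose κ hκ0 hκ using key
  refine ⟨κ, hκ0, hκ, ?_⟩
  rw [HP, eval_fin, HH]
  rw [MvPolynomial.hom_eval₂]
  have e0 : (eval₂Hom φ (Fin.cons (xc w) fun i => xc (b i) : Fin (n + 1) → F)).comp C = φ := by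
    ext a
    simp
  have e1 : ∀ p : Fin n × Fin 3, (eval₂Hom φ (Fin.cons (xc w) fun i => xc (b i)))
      (trp W A B p.1 p.2) =
      sy (κ p.1 • (c p.1 • w + b p.1).xRep) ((c p.1 • w - b p.1).xRep) p.2 := by
    rintro ⟨i, j⟩
    rw [sy_smul]
    refine Eq.trans ?_ (hκ i j)
    rw [trp, map_asm, e0]
    congr 1
    funext k
    rw [map_sy]
    congr 1
    · funext l
      fin_cases l
      · change (eval₂Hom φ (Fin.cons (xc w) fun i => xc (b i))) ((A i).eval₂ C (X 0)) = _
        rw [Polynomial.hom_eval₂, e0]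
        simp
      · change (eval₂Hom φ (Fin.cons (xc w) fun i => xc (b i))) ((B i).eval₂ C (X 0)) = _
        rw [Polynomial.hom_eval₂, e0]
        simp
    · funext l
      fin_cases l <;> simp
  rw [e0]
  have e2 : (fun p : Fin n × Fin 3 => (eval₂Hom φ (Fin.cons (xc w) fun i => xc (b i)))
      (trp W A B p.1 p.2)) = fun p => sy ((fun i => κ i • (c i • w + b i).xRep) p.1)
        ((fun i => (c i • w - b i).xRep) p.1) p.2 := by
    funext p
    exact e1 p
  rw [e2]
  exact hN.val F φ (fun i => κ i • (c i • w + b i).xRep) (fun i => (c i • w - b i).xRep)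

end

end Pool.Agent.Helper18.RO
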