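import Pool.Agent.Helper46.RO.Base

/-!
# Packet RO-P2: one step of pushing
-/

namespace Pool.Agent.Helper18.RO

open Pool.Agent.Helper46.RO

universe u

variable {L : Type u} [Group L] {X : Finset L}

/-- dot product -/
def dot {n : ℕ} (a b : Fin n → ℤ) : ℤ := ∑ i, a i * b i

theorem nrm_add {n : ℕ} (a b : Fin n → ℤ) : nrm (a + b) = nrm a + 2 * dot a b + nrm b := by
  unfold nrm dot
  rw [Finset.mul_sum, ← Finset.sum_add_distrib, ← Finset.sum_add_distrib]
  refine Finset.sum_congr rfl (fun i _ => ?_)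
  simp only [Pi.add_apply]
  ring

theorem dot_add_left {n : ℕ} (a b c : Fin n → ℤ) : dot (a + b) c = dot a c + dot b c := by
  unfold dot
  rw [← Finset.sum_add_distrib]
  refine Finset.sum_congr rfl (fun i _ => ?_)
  simp only [Pi.add_apply]
  ring

theorem dot_nsmul {n : ℕ} (a b : Fin n → ℤ) (i : ℕ) : dot a (i • b) = i * dot a b := by
  unfold dot
  rw [Finset.mul_sum]
  refine Finset.sum_congr rfl (fun j _ => ?_)
  simp only [Pi.smul_apply, nsmul_eq_mul]
  ring

theorem nrm_nsmul {n : ℕ} (b : Fin n → ℤ) (i : ℕ) : nrm (i • b) = (i : ℤ) ^ 2 * nrm b := by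
  unfold nrm
  rw [Finset.mul_sum]
  refine Finset.sum_congr rfl (fun j _ => ?_)
  simp only [Pi.smul_apply, nsmul_eq_mul]
  ring

theorem hom_one {n : ℕ} {π : L → Fin n → ℤ} (hπ : IsHomZ π) : π 1 = 0 := by
  have h := hπ 1 1
  rw [mul_one] at h
  exact left_eq_add.1 h

theorem hom_pow {n : ℕ} {π : L → Fin n → ℤ} (hπ : IsHomZ π) (a : L) (i : ℕ) :
    π (a ^ i) = i • π a := by
  induction i with
  | zero => rw [pow_zero, hom_one hπ, zero_smul]
  | succ i ih => rw [pow_succ, hπ, ih, succ_nsmul]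

/-- The witnesses in terms of integers. -/
theorem witness {n : ℕ} {π : L → Fin n → ℤ} (hπ : IsHomZ π) (hU : Unif X π) :
    ∃ R : ℤ, ∀ K, R ≤ K → ∀ k, nrm (π k) = K + 1 → ∃ x₀ ∈ X, ∃ m : ℕ,
      (∀ x ∈ X, Conn X {v | nrm (π v) ≤ K} (k * x₀ ^ m) (k * x * x₀ ^ m)) ∧
      (∀ y ∈ X, ∀ i ≤ m, nrm (π (k * y * x₀ ^ i)) ≤ nrm (π (k * y)) - i) ∧
      (∀ x ∈ X, x ≠ 1 → 1 ≤ m) := by
  classical
  obtain ⟨WW, δ, hδ, hW⟩ := hU
  -- the bound
  obtain ⟨B, hB⟩ : ∃ B : ℤ, ∀ W ∈ WW, (∀ y ∈ X, 2 * dot (π y) (π W.1) + W.2.1 * nrm (π W.1) ≤ B) ∧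
      (∀ v ∈ W.2.2, nrm (π v) ≤ B) := by
    have h0 : ∀ W : L × ℕ × Finset L,
        (0 : ℤ) ≤ (∑ y ∈ X, |2 * dot (π y) (π W.1) + W.2.1 * nrm (π W.1)|) +
          ∑ v ∈ W.2.2, |nrm (π v)| := fun W =>
      add_nonneg (Finset.sum_nonneg fun _ _ => abs_nonneg _)
        (Finset.sum_nonneg fun _ _ => abs_nonneg _)
    refine ⟨∑ W ∈ WW, ((∑ y ∈ X, |2 * dot (π y) (π W.1) + W.2.1 * nrm (π W.1)|) +
      ∑ v ∈ W.2.2, |nrm (π v)|), ?_⟩
    intro W hWW
    have h1 := Finset.single_le_sum (f := fun W : L × ℕ × Finset L =>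
      (∑ y ∈ X, |2 * dot (π y) (π W.1) + W.2.1 * nrm (π W.1)|) +
      ∑ v ∈ W.2.2, |nrm (π v)|) (fun W _ => h0 W) hWW
    constructor
    · intro y hy
      have h2 := Finset.single_le_sum (f := fun y : L =>
        |2 * dot (π y) (π W.1) + W.2.1 * nrm (π W.1)|) (fun _ _ => abs_nonneg _) hy
      have h3 := le_abs_self (2 * dot (π y) (π W.1) + W.2.1 * nrm (π W.1))
      have h4 : (0 : ℤ) ≤ ∑ v ∈ W.2.2, |nrm (π v)| := Finset.sum_nonneg fun _ _ => abs_nonneg _
      linarith
    · intro v hv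
      have h2 := Finset.single_le_sum (f := fun v : L => |nrm (π v)|)
        (fun _ _ => abs_nonneg _) hv
      have h3 := le_abs_self (nrm (π v))
      have h4 : (0 : ℤ) ≤ ∑ y ∈ X, |2 * dot (π y) (π W.1) + W.2.1 * nrm (π W.1)| :=
        Finset.sum_nonneg fun _ _ => abs_nonneg _
      linarith
  refine ⟨max 0 ⌈((B + 1 : ℝ) / (2 * δ)) ^ 2⌉, ?_⟩
  intro K hK k hk
  have hK0 : 0 ≤ K := le_trans (le_max_left _ _) hK
  have hK1 : ((B + 1 : ℝ) / (2 * δ)) ^ 2 ≤ (K : ℝ) := by
    have h1 : ⌈((B + 1 : ℝ) / (2 * δ)) ^ 2⌉ ≤ K := le_trans (le_max_right _ _) hK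
    exact Int.ceil_le.1 h1
  have hS : (0 : ℝ) < (K : ℝ) + 1 := by
    have : (0 : ℝ) ≤ (K : ℝ) := by exact_mod_cast hK0
    linarith
  set r : ℝ := Real.sqrt ((K : ℝ) + 1) with hr
  have hr0 : 0 < r := Real.sqrt_pos.2 hS
  have hrr : r ^ 2 = (K : ℝ) + 1 := Real.sq_sqrt hS.le
  have hrB : (B + 1 : ℝ) ≤ 2 * r * δ := by
    have h1 : (B + 1 : ℝ) / (2 * δ) ≤ r := by
      apply le_of_sq_le_sq _ hr0.le
      rw [hrr]; linarith
    rw [div_le_iff₀ (by positivity)] at h1
    linarith
  -- the unit vector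
  set w : Fin n → ℝ := fun i => -(π k i : ℝ) / r with hw
  have hw1 : ∑ i, w i ^ 2 = 1 := by
    have h1 : ∑ i, w i ^ 2 = (∑ i, ((π k i : ℤ) : ℝ) ^ 2) / r ^ 2 := by
      rw [Finset.sum_div]
      refine Finset.sum_congr rfl (fun i _ => ?_)
      rw [hw]
      ring
    have h2 : (∑ i, ((π k i : ℤ) : ℝ) ^ 2) = (K : ℝ) + 1 := by
      have h3 : ((nrm (π k) : ℤ) : ℝ) = (K : ℝ) + 1 := by rw [hk]; push_cast; ring
      rw [← h3]
      unfold nrm
      push_cast
      rfl
    rw [h1, h2, hrr, div_self hS.ne']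
  have hchr : ∀ v, (dot (π k) (π v) : ℝ) = -(r * chr π w v) := by
    intro v
    unfold dot chr
    push_cast
    rw [Finset.mul_sum, ← Finset.sum_neg_distrib]
    refine Finset.sum_congr rfl (fun i _ => ?_)
    rw [hw]
    field_simp
  obtain ⟨W, hWW, hG1, hG2, hG3⟩ := hW w hw1
  obtain ⟨hB1, hB2⟩ := hB W hWW
  refine ⟨W.1, hG1, W.2.1, ?_, ?_, ?_⟩
  · intro x hx
    have h1 := (hG3 x hx).translate k (P' := {v | nrm (π v) ≤ K}) (by
      intro v hv
      obtain ⟨hv1, hv2⟩ := hv
      change nrm (π (k * v)) ≤ K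
      rw [hπ, nrm_add, hk]
      have h2 := hB2 v hv1
      have h3 : δ ≤ chr π w v := by
        have := le_max_left 0 (chr π w x)
        linarith
      have h4 : (dot (π k) (π v) : ℝ) ≤ -(r * δ) := by
        rw [hchr v]
        have := mul_le_mul_of_nonneg_left h3 hr0.le
        linarith
      have h5 : ((K + 1 + 2 * dot (π k) (π v) + nrm (π v) : ℤ) : ℝ) ≤ ((K : ℤ) : ℝ) := by
        push_cast
        have h6 : ((nrm (π v) : ℤ) : ℝ) ≤ B := by exact_mod_cast h2
        linarith
      exact_mod_cast h5)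
    rwa [← mul_assoc] at h1
  · intro y hy i hi
    have hd : (dot (π k) (π W.1) : ℝ) ≤ -(r * δ) := by
      rw [hchr W.1]
      have := mul_le_mul_of_nonneg_left hG2 hr0.le
      linarith
    have e : nrm (π (k * y * W.1 ^ i)) = nrm (π (k * y)) +
        i * (2 * dot (π k) (π W.1) + 2 * dot (π y) (π W.1) + i * nrm (π W.1)) := by
      rw [hπ (k * y), hom_pow hπ, nrm_add, dot_nsmul, nrm_nsmul]
      rw [hπ k y, dot_add_left]
      ring
    rw [e]
    have hn0 : 0 ≤ nrm (π W.1) := Finset.sum_nonneg fun _ _ => sq_nonneg _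
    have h1 : 2 * dot (π k) (π W.1) + 2 * dot (π y) (π W.1) + i * nrm (π W.1) ≤ -1 := by
      have h2 : (i : ℤ) * nrm (π W.1) ≤ W.2.1 * nrm (π W.1) :=
        mul_le_mul_of_nonneg_right (by exact_mod_cast hi) hn0
      have h3 := hB1 y hy
      have h4 : 2 * dot (π k) (π W.1) + B ≤ -1 := by
        have h5 : ((2 * dot (π k) (π W.1) + B : ℤ) : ℝ) ≤ ((-1 : ℤ) : ℝ) := by
          push_cast
          linarith
        exact_mod_cast h5
      linarith
    have h2 : (i : ℤ) * (2 * dot (π k) (π W.1) + 2 * dot (π y) (π W.1) + i * nrm (π W.1)) ≤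
        i * (-1) := mul_le_mul_of_nonneg_left h1 (by positivity)
    linarith
  · intro x hx hx1
    by_contra hm
    have hm0 : W.2.1 = 0 := by omega
    have h1 := hG3 x hx
    rw [hm0, pow_zero, mul_one] at h1
    rcases Relation.ReflTransGen.cases_head h1 with h2 | ⟨c, h2, _⟩
    · exact hx1 h2.symm
    · have h3 : max 0 (chr π w x) + δ ≤ chr π w 1 := h2.1.2
      have h4 : chr π w 1 = 0 := by
        unfold chr
        rw [hom_one hπ]
        simp
      rw [h4] at h3
      have := le_max_left 0 (chr π w x)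
      linarith

/-- Going down along a letter. -/
theorem conn_pow {P : Set L} {q y : L} (hy : y ∈ X) {a b : ℕ} (hab : a ≤ b)
    (h : ∀ i, a ≤ i → i ≤ b → q * y ^ i ∈ P) : Conn X P (q * y ^ a) (q * y ^ b) := by
  induction b, hab using Nat.le_induction with
  | base => exact Conn.refl _
  | succ b hb ih =>
    refine (ih (fun i h1 h2 => h i h1 (by omega))).trans ?_
    have e : q * y ^ (b + 1) = q * y ^ b * y := by rw [pow_succ, mul_assoc]
    have h1 := h b hb (by omega)
    have h2 := h (b + 1) (by omega) le_rfl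
    rw [e] at h2 ⊢
    exact Conn.step hy h1 h2

theorem P2 : GoalP2.{u} := by
  classical
  intro L _ X n π hX hπ hU
  obtain ⟨R, hR⟩ := witness hπ hU
  refine ⟨R, ?_⟩
  intro K hK g h hg hh hc
  have hR' := hR K hK
  choose! a ha m h1 h2 h3 using hR'
  set P : Set L := {k | nrm (π k) ≤ K} with hP
  let down : L → L := fun k => if nrm (π k) = K + 1 then k * a k ^ m k else k
  have down_low : ∀ k, nrm (π k) ≤ K → down k = k := by
    intro k hk
    have : ¬ nrm (π k) = K + 1 := by omega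
    simp only [down, if_neg this]
  have down_top : ∀ k, nrm (π k) = K + 1 → down k = k * a k ^ m k := by
    intro k hk
    simp only [down, if_pos hk]
  -- an edge from the top to the bottom
  have caseA : ∀ k x, x ∈ X → nrm (π k) = K + 1 → nrm (π (k * x)) ≤ K →
      Conn X P (k * a k ^ m k) (k * x) := by
    intro k x hx hk hkx
    refine (h1 k hk x hx).trans ?_
    refine Conn.symm hX ?_
    have h4 := conn_pow (P := P) (q := k * x) (ha k hk) (Nat.zero_le (m k)) (by
      intro i _ hi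
      change nrm (π (k * x * a k ^ i)) ≤ K
      have := h2 k hk x hx i hi
      have h5 : (0 : ℤ) ≤ i := by positivity
      linarith)
    rwa [pow_zero, mul_one] at h4
  have edge : ∀ k k', nrm (π k) ≤ K + 1 → nrm (π k') ≤ K + 1 → k⁻¹ * k' ∈ X →
      Conn X P (down k) (down k') := by
    intro k k' hk hk' hx
    obtain ⟨x, rfl⟩ : ∃ x, k' = k * x := ⟨k⁻¹ * k', by rw [mul_inv_cancel_left]⟩
    rw [inv_mul_cancel_left] at hx
    rcases hk.lt_or_eq with hk1 | hk1
    · have hk2 : nrm (π k) ≤ K := by omega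
      rcases hk'.lt_or_eq with hk1' | hk1'
      · have hk2' : nrm (π (k * x)) ≤ K := by omega
        rw [down_low _ hk2, down_low _ hk2']
        exact Conn.step hx hk2 hk2'
      · rw [down_low _ hk2, down_top _ hk1']
        have h4 := caseA (k * x) x⁻¹ (hX.1 x hx) hk1' (by rw [mul_inv_cancel_right]; exact hk2)
        rw [mul_inv_cancel_right] at h4
        exact h4.symm hX
    · rcases hk'.lt_or_eq with hk1' | hk1'
      · have hk2' : nrm (π (k * x)) ≤ K := by omega
        rw [down_low _ hk2', down_top _ hk1]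
        exact caseA k x hx hk1 hk2'
      · rw [down_top _ hk1, down_top _ hk1']
        by_cases hx1 : x = 1
        · subst hx1
          rw [mul_one]
          exact Conn.refl _
        have hm : 1 ≤ m k := h3 k hk1 x hx hx1
        set k' := k * x with hk'def
        -- from `k * a k ^ m` to `k' * a k`
        have s1 : Conn X P (k * a k ^ m k) (k' * a k ^ m k) := h1 k hk1 x hx
        have s2 : Conn X P (k' * a k ^ 1) (k' * a k ^ m k) :=
          conn_pow (ha k hk1) hm (by
            intro i hi1 hi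
            change nrm (π (k' * a k ^ i)) ≤ K
            have := h2 k hk1 x hx i hi
            rw [← hk'def, hk1'] at this
            have h5 : (1 : ℤ) ≤ i := by exact_mod_cast hi1
            linarith)
        rw [pow_one] at s2
        have hq : nrm (π (k' * a k)) ≤ K := by
          have := h2 k hk1 x hx 1 hm
          rw [← hk'def, hk1', pow_one] at this
          push_cast at this
          linarith
        -- from `k' * b ^ m'` to `k' * a k`
        have s3 := caseA k' (a k) (ha k hk1) hk1' hq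
        exact s1.trans ((s2.symm hX).trans (s3.symm hX))
  have main : ∀ k, Conn X {k | nrm (π k) ≤ K + 1} g k → Conn X P (down g) (down k) := by
    intro k hgk
    induction hgk with
    | refl => exact Conn.refl _
    | @tail b c _ hbc ih => exact ih.trans (edge b c hbc.1 hbc.2.1 hbc.2.2)
  have h4 := main h hc
  rwa [down_low g hg, down_low h hh] at h4

end Pool.Agent.Helper18.RO
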